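import Mathlib

set_option autoImplicit false

open Set Topology Cardinal

namespace Pool.Agent.Results.MP_632b8e_gt.GroupNotKSpace

/-- The index set, of cardinality `2^𝔠`. -/
abbrev I : Type := Set ℝ

/-- Points of the compact group `(ℤ/2)^I` that are constant off a countable set. -/
def GS : AddSubgroup (I → ZMod 2) where
  carrier := {x | ∃ c : ZMod 2, {i | x i ≠ c}.Countable}
  zero_mem' := ⟨0, by simp⟩
  add_mem' := by
    rintro x y ⟨c, hc⟩ ⟨d, hd⟩
    refine ⟨c + d, (hc.union hd).mono fun i hi => ?_⟩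
    by_contra h
    simp only [mem_union, mem_setOf_eq, not_or, not_not] at h
    exact hi (by simp [h.1, h.2])
  neg_mem' := by
    rintro x ⟨c, hc⟩
    refine ⟨-c, hc.mono fun i hi => ?_⟩
    intro h
    exact hi (by simp [h])

lemma isClosed_on (A : Set I) (f : I → ZMod 2) :
    IsClosed {x : I → ZMod 2 | ∀ i ∈ A, x i = f i} := by
  have : {x : I → ZMod 2 | ∀ i ∈ A, x i = f i} = ⋂ i ∈ A, {x | x i = f i} := by
    ext x
    simp
  rw [this]
  refine isClosed_biInter fun i _ => ?_
  exact isClosed_eq (continuous_apply i) continuous_const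

lemma mk_I : #I = 2 ^ 𝔠 := by
  simp [I, Cardinal.mk_real]

lemma not_small (J : Set I) (hJ : #J ≤ 𝔠) : ¬ (Jᶜ).Countable := by
  intro h
  have h1 : #I ≤ 𝔠 := by
    have := Cardinal.mk_union_le J Jᶜ
    rw [union_compl_self, Cardinal.mk_univ] at this
    exact this.trans (Cardinal.add_le_of_le aleph0_le_continuum hJ
      (h.le_aleph0.trans aleph0_le_continuum))
  rw [mk_I] at h1
  exact absurd h1 (not_le.2 (Cardinal.cantor _))

/-- every sequence lies in a compact subset -/
lemma omega_bounded (u : ℕ → GS) : ∃ K : Set GS, IsCompact K ∧ ∀ n, u n ∈ K := by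
  choose c hc using fun n => (u n).2
  set A : Set I := ⋃ n, {i | (u n).1 i ≠ c n} with hA
  have hAc : A.Countable := countable_iUnion hc
  set K0 : Set (I → ZMod 2) := ⋃ d : ZMod 2, {x | ∀ i ∈ Aᶜ, x i = (fun _ => d) i} with hK0
  have hK0c : IsCompact K0 := (isClosed_iUnion_of_finite fun d => isClosed_on _ _).isCompact
  have hK0X : K0 ⊆ (GS : Set (I → ZMod 2)) := by
    intro x hx
    obtain ⟨d, hd⟩ := mem_iUnion.1 hx
    refine ⟨d, hAc.mono fun i hi => ?_⟩
    by_contra h
    exact hi (hd i h)
  refine ⟨Subtype.val ⁻¹' K0, ?_, fun n => ?_⟩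
  · rw [Subtype.isCompact_iff]
    have : Subtype.val '' ((Subtype.val : GS → I → ZMod 2) ⁻¹' K0) = K0 := by
      ext x
      constructor
      · rintro ⟨y, hy, rfl⟩; exact hy
      · intro hx; exact ⟨⟨x, hK0X hx⟩, hx, rfl⟩
    rw [this]
    exact hK0c
  · refine mem_iUnion.2 ⟨c n, fun i hi => ?_⟩
    by_contra h
    exact hi (mem_iUnion.2 ⟨n, h⟩)

/-- points of uncountable support are not limits of points of countable support inside a
compact subset -/
lemma isolated (K : Set (I → ZMod 2)) (hK : IsCompact K) (hKX : K ⊆ (GS : Set (I → ZMod 2)))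
    (p : I → ZMod 2) (hp : {i | p i ≠ 1}.Countable) :
    ∃ F : Finset I, ∀ x ∈ K, (∀ i ∈ F, x i = p i) → ¬ {i | x i ≠ 0}.Countable := by
  classical
  by_contra hcon
  push Not at hcon
  choose y hyK hyF hyc using hcon
  let e : ℝ → I := fun r => {r}
  have he : Function.Injective e := fun a b h => by
    simpa [e] using h
  let J' : Set I := ⋃ G : Finset ℝ, {i | y (G.image e) i ≠ 0}
  have hJ' : #J' ≤ 𝔠 := by
    refine (Cardinal.mk_iUnion_le _).trans ?_
    have h1 : #(Finset ℝ) = 𝔠 := by
      rw [Cardinal.mk_finset_of_infinite, Cardinal.mk_real]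
    have h2 : (⨆ G : Finset ℝ, #({i | y (G.image e) i ≠ 0} : Set I)) ≤ ℵ₀ :=
      ciSup_le' fun G => (hyc _).le_aleph0
    rw [h1]
    calc 𝔠 * (⨆ G : Finset ℝ, #({i | y (G.image e) i ≠ 0} : Set I)) ≤ 𝔠 * ℵ₀ := by gcongr
      _ = 𝔠 := by simp
  let C : Finset ℝ → Set (I → ZMod 2) := fun G =>
    K ∩ ({x | ∀ i ∈ J'ᶜ, x i = (fun _ => 0) i} ∩ {x | ∀ i ∈ (↑(G.image e) : Set I), x i = p i})
  have hCc : ∀ G, IsClosed (C G) := fun G =>
    hK.isClosed.inter ((isClosed_on _ _).inter (isClosed_on _ _))
  have hCne : ∀ G, (C G).Nonempty := fun G =>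
    ⟨y (G.image e), hyK _, fun i hi => by
      by_contra h
      exact hi (mem_iUnion.2 ⟨G, h⟩), hyF _⟩
  have hdir : Directed (· ⊇ ·) C := by
    intro G H
    refine ⟨G ∪ H, ?_, ?_⟩
    · rintro x ⟨h1, h2, h3⟩
      exact ⟨h1, h2, fun i hi => h3 i (Finset.image_subset_image Finset.subset_union_left hi)⟩
    · rintro x ⟨h1, h2, h3⟩
      exact ⟨h1, h2, fun i hi => h3 i (Finset.image_subset_image Finset.subset_union_right hi)⟩
  obtain ⟨x, hx⟩ := IsCompact.nonempty_iInter_of_directed_nonempty_isCompact_isClosed C hdir hCne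
    (fun G => (hCc G).isCompact) hCc
  rw [mem_iInter] at hx
  have hxK : x ∈ K := (hx ∅).1
  have hxJ : ∀ i ∈ J'ᶜ, x i = 0 := (hx ∅).2.1
  have hxe : ∀ r, x (e r) = p (e r) := fun r => (hx {r}).2.2 _ (by simp)
  obtain ⟨c, hc⟩ := hKX hxK
  by_cases h0 : c = 0
  · have h2 : (range e).Countable := by
      refine (hc.union hp).mono ?_
      rintro _ ⟨r, rfl⟩
      by_contra h
      simp only [mem_union, mem_setOf_eq, not_or, not_not] at h
      rw [hxe, h.2, h0] at h
      exact absurd h.1 (by decide)
    rw [← image_univ] at h2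
    exact Cardinal.not_countable_real (countable_of_injective_of_countable_image he.injOn h2)
  · refine not_small J' hJ' (hc.mono fun i hi => ?_)
    show x i ≠ c
    rw [hxJ i hi]
    exact fun h => h0 h.symm

/-- There is a Hausdorff (Tychonoff) abelian topological group in which every compact-finite indexed
family of sets is locally finite, so that it contains no `Cld`-fan, and which is not a `k`-space. -/
theorem result :
    ∃ (G : Type) (_ : AddCommGroup G) (_ : TopologicalSpace G),
      IsTopologicalAddGroup G ∧ T35Space G ∧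
      (∀ (ι : Type) (F : ι → Set G),
        (∀ K : Set G, IsCompact K → {a | (F a ∩ K).Nonempty}.Finite) → LocallyFinite F) ∧
      ¬ (∀ C : Set G, (∀ K : Set G, IsCompact K → IsClosed ((Subtype.val : K → G) ⁻¹' C)) →
          IsClosed C) := by
  classical
  refine ⟨GS, inferInstance, inferInstance, inferInstance, inferInstance, ?_, ?_⟩
  · intro ι F hF
    have hfin : {a | (F a).Nonempty}.Finite := by
      by_contra hinf
      have hinf' : {a | (F a).Nonempty}.Infinite := hinf
      let g := hinf'.natEmbedding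
      choose u hu using fun n => (g n).2
      obtain ⟨K, hK, huK⟩ := omega_bounded u
      have h1 := hF K hK
      refine (infinite_of_injective_forall_mem (f := fun n => (g n).1) ?_ ?_) h1
      · intro a b hab
        exact g.injective (Subtype.ext hab)
      · intro n
        exact ⟨u n, hu n, huK n⟩
    intro x
    refine ⟨Set.univ, Filter.univ_mem, hfin.subset ?_⟩
    rintro a ⟨z, hz, -⟩
    exact ⟨z, hz⟩
  · intro h
    have hcl : IsClosed {x : GS | {i | x.1 i ≠ 0}.Countable} := by
      refine h _ fun K hK => ?_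
      rw [← isOpen_compl_iff, isOpen_iff_mem_nhds]
      intro z hz
      have hz1 : {i | z.1.1 i ≠ 1}.Countable := by
        obtain ⟨c, hc⟩ := z.1.2
        have : c = 0 ∨ c = 1 := (by decide : ∀ c : ZMod 2, c = 0 ∨ c = 1) c
        rcases this with rfl | rfl
        · exact absurd hc hz
        · exact hc
      obtain ⟨F, hF⟩ := isolated (Subtype.val '' K) (hK.image continuous_subtype_val)
        (by rintro _ ⟨z, -, rfl⟩; exact z.2) _ hz1
      have hop : IsOpen (⋂ i ∈ F, {w : K | w.1.1 i = z.1.1 i}) := by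
        refine isOpen_biInter_finset fun i _ => ?_
        have hc : Continuous fun w : K => w.1.1 i := (continuous_apply i).comp
          (continuous_subtype_val.comp continuous_subtype_val)
        exact (isOpen_discrete {z.1.1 i}).preimage hc
      refine Filter.mem_of_superset (hop.mem_nhds (by simp)) fun w hw => ?_
      exact hF _ ⟨w.1, w.2, rfl⟩ (by simpa using hw)
    let p : GS := ⟨fun _ => 1, 1, by simp⟩
    have hp : p ∈ ({x : GS | {i | x.1 i ≠ 0}.Countable})ᶜ := by
      intro hc
      refine not_small ∅ (by simp) (hc.mono fun i _ => ?_)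
      show (1 : ZMod 2) ≠ 0
      decide
    obtain ⟨U, hU, hUp⟩ := isOpen_induced_iff.1 hcl.isOpen_compl
    have hpU : (fun _ : I => (1 : ZMod 2)) ∈ U := by
      rw [← hUp] at hp
      exact hp
    obtain ⟨F, v, hv, hFU⟩ := isOpen_pi_iff.1 hU _ hpU
    let q : I → ZMod 2 := fun i => if i ∈ F then 1 else 0
    have hq : {i | q i ≠ 0}.Countable := F.countable_toSet.mono fun i hi => by
      by_contra h
      exact hi (if_neg h)
    have hqU : q ∈ U := hFU fun i hi => by
      have : q i = 1 := if_pos hi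
      rw [this]; exact (hv i hi).2
    have : (⟨q, 0, hq⟩ : GS) ∈ Subtype.val ⁻¹' U := hqU
    rw [hUp] at this
    exact this hq

end Pool.Agent.Results.MP_632b8e_gt.GroupNotKSpace
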